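import Mathlib

/-! Bent sets, and logarithmic averages. -/

open scoped Topology
open Filter MeasureTheory Set

noncomputable section

namespace Pool.Agent.MP_ce43bb_an.H58

/-- The sign character. -/
def sg (z : ZMod 2) : ℝ := if z = 0 then 1 else -1

lemma sg_add (a b : ZMod 2) : sg (a + b) = sg a * sg b := by
  have h : ∀ a b : ZMod 2, (a + b = 0 ↔ (a = 0 ↔ b = 0)) := by decide
  simp only [sg, h]
  by_cases ha : a = 0 <;> by_cases hb : b = 0 <;> simp [ha, hb]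

lemma sg_zero : sg 0 = 1 := by simp [sg]

lemma abs_sg (a : ZMod 2) : |sg a| = 1 := by
  unfold sg
  split_ifs <;> simp

lemma sum_sg {m : ℕ} (a : Fin m → ZMod 2) :
    ∑ x, sg (a ⬝ᵥ x) = if a = 0 then 2 ^ m else 0 := by
  split_ifs with h
  · simp [h, sg_zero]
  obtain ⟨i, hi⟩ := Function.ne_iff.mp h
  have h1 : sg (a ⬝ᵥ Pi.single i 1) = -1 := by
    rw [dotProduct_single, mul_one]
    exact if_neg hi
  have h2 := Equiv.sum_comp (Equiv.addRight (Pi.single i 1 : Fin m → ZMod 2))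
    fun x => sg (a ⬝ᵥ x)
  simp only [Equiv.coe_addRight, dotProduct_add, sg_add, h1, mul_neg, mul_one,
    Finset.sum_neg_distrib] at h2
  linarith

theorem exists_bent (m : ℕ) (hm : 1 ≤ m) :
    ∃ (χ : (Fin m → ZMod 2) × (Fin m → ZMod 2) → (Fin m → ZMod 2) × (Fin m → ZMod 2) → ℝ)
      (S : Finset ((Fin m → ZMod 2) × (Fin m → ZMod 2))),
      (∀ a b x, χ (a + b) x = χ a x * χ b x) ∧ (∀ a x, χ a x = χ x a) ∧ (∀ x, χ 0 x = 1) ∧
      (∀ a, a ≠ 0 → ∑ x, χ a x = 0) ∧ S.Nonempty ∧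
      (∀ a, a ≠ 0 → |∑ x ∈ S, χ a x| * 2 ^ m ≤ S.card) ∧ 4 ^ m ≤ 4 * Sᶜ.card := by
  let χ : (Fin m → ZMod 2) × (Fin m → ZMod 2) → (Fin m → ZMod 2) × (Fin m → ZMod 2) → ℝ :=
    fun a x => sg (a.1 ⬝ᵥ x.1) * sg (a.2 ⬝ᵥ x.2)
  let S : Finset ((Fin m → ZMod 2) × (Fin m → ZMod 2)) :=
    Finset.univ.filter fun x => x.1 ⬝ᵥ x.2 = 0
  have h1 : ∀ a, ∑ x, χ a x = if a = 0 then 4 ^ m else 0 := by
    rintro ⟨a, b⟩
    simp only [χ, Fintype.sum_prod_type]
    rw [← Fintype.sum_mul_sum, sum_sg, sum_sg]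
    by_cases ha : a = 0 <;> by_cases hb : b = 0 <;> simp [ha, hb, ← mul_pow]
    norm_num
  have h2 : ∀ a, ∑ x, χ a x * sg (x.1 ⬝ᵥ x.2) = 2 ^ m * sg (a.1 ⬝ᵥ a.2) := by
    rintro ⟨a, b⟩
    have h3 : ∀ x : Fin m → ZMod 2, b + x = 0 ↔ x = b := fun x => by
      rw [add_eq_zero_iff_neg_eq, eq_comm]
      rw [show -b = b from funext fun i => ZMod.neg_eq_self_mod_two _]
    have h4 : ∀ x y : Fin m → ZMod 2, sg (a ⬝ᵥ x) * sg (b ⬝ᵥ y) * sg (x ⬝ᵥ y)
        = sg (a ⬝ᵥ x) * sg ((b + x) ⬝ᵥ y) := fun x y => by rw [add_dotProduct, sg_add, mul_assoc]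
    simp only [χ, Fintype.sum_prod_type, h4, ← Finset.mul_sum, sum_sg, h3, mul_ite, mul_zero,
      Finset.sum_ite_eq', Finset.mem_univ, if_true]
    exact mul_comm _ _
  have h3 : ∀ a, 2 * ∑ x ∈ S, χ a x = ∑ x, χ a x + ∑ x, χ a x * sg (x.1 ⬝ᵥ x.2) := fun a => by
    rw [← Finset.sum_add_distrib, Finset.sum_filter, Finset.mul_sum]
    refine Finset.sum_congr rfl fun x _ => ?_
    unfold sg
    split_ifs <;> ring
  have h0 : ∀ x, χ 0 x = 1 := fun x => by simp [χ, sg_zero]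
  have h4 : 2 * (S.card : ℝ) = 4 ^ m + 2 ^ m := by
    have := h3 0
    rw [h1, h2] at this
    simpa [h0, sg_zero] using this
  have h5 : (4 : ℝ) ^ m = 2 ^ m * 2 ^ m := by rw [← mul_pow]; norm_num
  have h6 : (2 : ℝ) ≤ 2 ^ m := le_self_pow₀ (by norm_num) (by omega)
  refine ⟨χ, S, fun a b x => ?_, fun a x => ?_, h0, fun a ha => by rw [h1, if_neg ha],
    ⟨0, by simp [S]⟩, fun a ha => ?_, ?_⟩
  · simp only [χ, Prod.fst_add, Prod.snd_add, add_dotProduct, sg_add]
    ring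
  · simp only [χ, dotProduct_comm]
  · have h7 := congrArg abs (h3 a)
    rw [h1, if_neg ha, h2, zero_add, abs_mul, abs_mul, abs_sg, abs_two,
      abs_of_pos (show (0 : ℝ) < 2 ^ m by positivity)] at h7
    nlinarith
  · have h7 : (S.card : ℝ) + Sᶜ.card = 4 ^ m := by
      rw [← Nat.cast_add, Finset.card_add_card_compl, h5]
      simp
    have h8 : (4 : ℝ) ^ m ≤ 4 * Sᶜ.card := by nlinarith
    exact_mod_cast h8

lemma log_int {s : ℝ} (hs : 0 < s) : IntegrableOn (fun r : ℝ => 1 / (1 + r) - 1 / (s + r)) (Ioi 0)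
    ∧ ∫ r in Ioi (0 : ℝ), (1 / (1 + r) - 1 / (s + r)) = Real.log s := by
  have h1 : ∀ x ∈ Ici (0 : ℝ), HasDerivAt (fun r => Real.log (1 + r) - Real.log (s + r))
      (1 / (1 + x) - 1 / (s + x)) x := fun x (hx : 0 ≤ x) =>
    (((hasDerivAt_id' x).const_add 1).log (by positivity)).sub
      (((hasDerivAt_id' x).const_add s).log (by positivity))
  have h2 : Tendsto (fun r => Real.log (1 + r) - Real.log (s + r)) atTop (𝓝 0) := by
    have h3 := (Real.tendsto_log_comp_add_sub_log 1).sub (Real.tendsto_log_comp_add_sub_log s)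
    simp only [sub_sub_sub_cancel_right, sub_zero] at h3
    simpa only [add_comm] using h3
  have h3 : IntegrableOn (fun r : ℝ => 1 / (1 + r) - 1 / (s + r)) (Ioi 0) := by
    rcases le_total s 1 with h | h
    · exact integrableOn_Ioi_deriv_of_nonpos' h1 (fun x (hx : 0 < x) =>
        sub_nonpos.mpr (one_div_le_one_div_of_le (by positivity) (by linarith))) h2
    · exact integrableOn_Ioi_deriv_of_nonneg' h1 (fun x (hx : 0 < x) =>
        sub_nonneg.mpr (one_div_le_one_div_of_le (by positivity) (by linarith))) h2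
  exact ⟨h3, by simpa using integral_Ioi_of_hasDerivAt_of_tendsto' h1 h3 h2⟩

lemma ii {f : ℝ → ℝ} (hf : Measurable f) {B : ℝ} (hB : ∀ T, 0 < T → T ≤ 1 → |f T| ≤ B)
    {x y : ℝ} (hx : 0 < x) (hxy : x ≤ y) (hy : y ≤ 1) :
    IntervalIntegrable (fun T => f T / T) volume x y := by
  rw [intervalIntegrable_iff_integrableOn_Ioc_of_le hxy]
  refine Measure.integrableOn_of_bounded (M := B / x) measure_Ioc_lt_top.ne
    (hf.div measurable_id).aestronglyMeasurable
    (ae_restrict_of_forall_mem measurableSet_Ioc fun T hT => ?_)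
  have h1 := hx.trans hT.1
  have h2 := hB T h1 (hT.2.trans hy)
  rw [Real.norm_eq_abs, abs_div, abs_of_pos h1]
  exact div_le_div₀ ((abs_nonneg _).trans h2) h2 hx hT.1.le

lemma ib {f : ℝ → ℝ} (hf : Measurable f) {B : ℝ} (hB : ∀ T, 0 < T → T ≤ 1 → |f T| ≤ B)
    {x y α M : ℝ} (hx : 0 < x) (hxy : x ≤ y) (hy : y ≤ 1)
    (h : ∀ T ∈ Icc x y, f T / T ≤ α / T + M) :
    ∫ T in x..y, f T / T ≤ α * (Real.log y - Real.log x) + M * (y - x) := by
  have h1 : IntervalIntegrable (fun T => α / T) volume x y :=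
    ii (f := fun _ => α) measurable_const (fun _ _ _ => le_rfl) hx hxy hy
  refine (intervalIntegral.integral_mono_on hxy (ii hf hB hx hxy hy)
    (h1.add intervalIntegrable_const) h).trans_eq ?_
  rw [intervalIntegral.integral_add h1 intervalIntegrable_const]
  simp only [div_eq_mul_inv, intervalIntegral.integral_const_mul, intervalIntegral.integral_const,
    smul_eq_mul]
  rw [integral_inv_of_pos hx (hx.trans_le hxy), Real.log_div (hx.trans_le hxy).ne' hx.ne',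
    mul_comm M]

lemma core {f : ℝ → ℝ} (hf : Measurable f) {B low high c t0 : ℝ} (K : ℝ)
    (hB : ∀ T, 0 < T → T ≤ 1 → |f T| ≤ B) (hlh : low < high) (hc : 0 < c) (ht0 : 0 < t0)
    (HL : ∀ t, 0 < t → t < t0 → ∃ a b, t ≤ b ∧ b < a ∧ a ≤ 1 ∧
      c * Real.log (1 / t) ≤ Real.log (a / b) ∧ ∀ T, b ≤ T → T ≤ a → f T ≤ low)
    (HH : ∀ t, 0 < t → t < t0 → ∃ a b, t ≤ b ∧ b < a ∧ a ≤ 1 ∧
      c * Real.log (1 / t) ≤ Real.log (a / b) ∧ ∀ T, b ≤ T → T ≤ a → high ≤ f T) :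
    limsup (fun t : ℝ => ((((∫ T in t..1, f T / T) + K) / Real.log (1 / t) : ℝ) : EReal)) (𝓝[>] 0)
      < limsup (fun t : ℝ => (f t : EReal)) (𝓝[>] 0) := by
  have hlog : Tendsto (fun t : ℝ => Real.log (1 / t)) (𝓝[>] 0) atTop := by
    simp only [one_div, Real.log_inv]
    exact tendsto_neg_atBot_atTop.comp Real.tendsto_log_nhdsGT_zero
  have hsm : ∀ ε > 0, ∀ᶠ t : ℝ in 𝓝[>] 0, t ∈ Ioo 0 ε := fun ε hε => Ioo_mem_nhdsGT hε
  have h1 : limsup (fun t : ℝ => (f t : EReal)) (𝓝[>] 0) ≤ (B : ℝ) :=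
    limsup_le_of_le (by isBoundedDefault) ((hsm 1 one_pos).mono fun t ht =>
      EReal.coe_le_coe_iff.mpr (abs_le.mp (hB t ht.1 ht.2.le)).2)
  have h2 : ((high : ℝ) : EReal) ≤ limsup (fun t : ℝ => (f t : EReal)) (𝓝[>] 0) := by
    refine le_limsup_of_frequently_le' ((nhdsGT_basis 0).frequently_iff.mpr fun ε hε => ?_)
    obtain ⟨t, ht, h3⟩ := ((hsm t0 ht0).and
      ((hlog.const_mul_atTop hc).eventually_gt_atTop (Real.log (1 / ε)))).exists
    obtain ⟨a, b, h4, h5, h6, h7, h8⟩ := HH t ht.1 ht.2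
    have hb := ht.1.trans_le h4
    refine ⟨b, ⟨hb, ?_⟩, EReal.coe_le_coe_iff.mpr (h8 b le_rfl h5.le)⟩
    have h9 := (Real.log_lt_log_iff (by positivity) (div_pos (hb.trans h5) hb)).mp (h3.trans_le h7)
    exact lt_of_one_div_lt_one_div hε (h9.trans_le (div_le_div_of_nonneg_right h6 hb.le))
  obtain ⟨v, hv⟩ : ∃ v : ℝ, limsup (fun t : ℝ => (f t : EReal)) (𝓝[>] 0) = v :=
    ⟨_, (EReal.coe_toReal (h1.trans_lt (EReal.coe_lt_top _)).ne
      ((EReal.bot_lt_coe _).trans_le h2).ne').symm⟩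
  rw [hv, EReal.coe_le_coe_iff] at h1 h2
  obtain ⟨η, hη, hη'⟩ : ∃ η > 0, 3 * η = c * (v - low) :=
    ⟨c * (v - low) / 3, by have : 0 < v - low := by linarith
                           positivity, by ring⟩
  obtain ⟨T0, hT0, h3⟩ := (nhdsGT_basis 0).eventually_iff.mp
    (eventually_lt_of_limsup_lt (hv.trans_lt (EReal.coe_lt_coe_iff.mpr (lt_add_of_pos_right v hη))))
  have hM : 0 ≤ (B - v) / T0 := div_nonneg (by linarith) hT0.le
  have h4 : ∀ T, 0 < T → T ≤ 1 → f T / T ≤ (v + η) / T + (B - v) / T0 := fun T h4 h5 => by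
    rcases lt_or_ge T T0 with h | h
    · exact (div_le_div_of_nonneg_right (EReal.coe_lt_coe_iff.mp (h3 ⟨h4, h⟩)).le h4.le).trans
        (le_add_of_nonneg_right hM)
    · refine le_trans ?_ (add_le_add_right (div_le_div_of_nonneg_left (by linarith) hT0 h) _)
      rw [← add_div]
      exact div_le_div_of_nonneg_right (by linarith [(abs_le.mp (hB T h4 h5)).2]) h4.le
  rw [hv]
  refine lt_of_le_of_lt (limsup_le_of_le (by isBoundedDefault) ?_)
    (EReal.coe_lt_coe_iff.mpr (sub_lt_self v hη))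
  filter_upwards [hsm t0 ht0, hsm 1 one_pos, hlog.eventually_gt_atTop 0,
    (hlog.const_mul_atTop hη).eventually_ge_atTop ((B - v) / T0 + K)] with t ht ht1 h5 h6
  obtain ⟨a, b, h7, h8, h9, h10, h11⟩ := HL t ht.1 ht.2
  have hb := ht.1.trans_le h7
  have ha := hb.trans h8
  have i1 := ib hf hB ht.1 h7 (h8.le.trans h9) fun T hT =>
    h4 T (ht.1.trans_le hT.1) (hT.2.trans (h8.le.trans h9))
  have i2 := ib hf hB (α := low) hb h8.le h9 fun T hT =>
    (div_le_div_of_nonneg_right (h11 T hT.1 hT.2) (hb.trans_le hT.1).le).trans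
      (le_add_of_nonneg_right hM)
  have i3 := ib hf hB ha h9 le_rfl fun T hT => h4 T (ha.trans_le hT.1) hT.2
  rw [EReal.coe_le_coe_iff, div_le_iff₀ h5, ← intervalIntegral.integral_add_adjacent_intervals
    (ii hf hB ht.1 (h7.trans h8.le) h9) (ii hf hB ha h9 le_rfl),
    ← intervalIntegral.integral_add_adjacent_intervals (ii hf hB ht.1 h7 (h8.le.trans h9))
    (ii hf hB hb h8.le h9)]
  rw [Real.log_div ha.ne' hb.ne'] at h10
  rw [one_div, Real.log_inv] at h5 h6 h10 ⊢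
  rw [Real.log_one] at i3
  have h12 : (v + η - low) * (c * -Real.log t) ≤ (v + η - low) * (Real.log a - Real.log b) :=
    mul_le_mul_of_nonneg_left h10 (by linarith)
  have h13 := mul_nonneg hM ht.1.le
  have h14 := mul_pos (mul_pos hη hc) h5
  have h15 : c * (v - low) * -Real.log t = 3 * η * -Real.log t := by rw [hη']
  nlinarith

theorem final_analysis (n : ℕ) (f : ℝ → ℝ) (hf : Measurable f) (C low high c t0 K : ℝ)
    (hn : ∀ T > 0, f T ≤ n) (hC : 0 ≤ C) (hlow : ∀ T > 0, n * T / (T + C) ≤ f T)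
    (hlh : low < high) (hc : 0 < c) (ht0 : 0 < t0)
    (HL : ∀ t, 0 < t → t < t0 → ∃ a b, t ≤ b ∧ b < a ∧ a ≤ 1 ∧
      c * Real.log (1 / t) ≤ Real.log (a / b) ∧ ∀ T, b ≤ T → T ≤ a → f T ≤ low)
    (HH : ∀ t, 0 < t → t < t0 → ∃ a b, t ≤ b ∧ b < a ∧ a ≤ 1 ∧
      c * Real.log (1 / t) ≤ Real.log (a / b) ∧ ∀ T, b ≤ T → T ≤ a → high ≤ f T) :
    (∀ t > 0, MeasureTheory.IntegrableOn (fun r : ℝ => n / (1 + r) - f (t + r) / (t + r))
      (Set.Ioi 0)) ∧
    limsup (fun t : ℝ => (((1 / 2 * (∫ r in Set.Ioi (0 : ℝ), (n / (1 + r) - f (t + r) / (t + r)))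
        + K) / Real.log (t ^ (1 / 2 : ℝ)) : ℝ) : EReal)) (𝓝[>] 0) <
      limsup (fun t : ℝ => (f t : EReal)) (𝓝[>] 0) ∧
    liminf (fun t : ℝ => (f t : EReal)) (𝓝[>] 0) <
      liminf (fun t : ℝ => (((1 / 2 * (∫ r in Set.Ioi (0 : ℝ), (n / (1 + r) - f (t + r) / (t + r)))
        + K) / Real.log (t ^ (1 / 2 : ℝ)) : ℝ) : EReal)) (𝓝[>] 0) := by
  let h : ℝ → ℝ := fun T => n / T - f T / T
  have hm : Measurable h := (measurable_const.div measurable_id).sub (hf.div measurable_id)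
  have hB : ∀ T, 0 < T → T ≤ 1 → |f T| ≤ n := fun T hT _ =>
    abs_le.mpr ⟨le_trans (neg_nonpos.mpr n.cast_nonneg) (le_trans (by positivity) (hlow T hT)),
      hn T hT⟩
  have h1 : ∀ t > 0, IntegrableOn (fun r => h (t + r)) (Ioi 0) := by
    intro t ht
    refine Integrable.mono' (((log_int (show 0 < t + C by positivity)).1.sub
      (log_int ht).1).const_mul n) (hm.comp (measurable_const_add t)).aestronglyMeasurable
      (ae_restrict_of_forall_mem measurableSet_Ioi fun r (hr : 0 < r) => ?_)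
    have hT : 0 < t + r := by positivity
    have h2 := div_le_div_of_nonneg_right (hlow _ hT) hT.le
    rw [div_right_comm, mul_div_cancel_right₀ _ hT.ne'] at h2
    rw [Real.norm_of_nonneg (sub_nonneg.mpr (div_le_div_of_nonneg_right (hn _ hT) hT.le))]
    simp only [Pi.sub_apply, add_right_comm t C r, sub_sub_sub_cancel_left, mul_sub, mul_one_div]
    linarith
  have h2 : ∀ t : ℝ, (fun r : ℝ => n / (1 + r) - f (t + r) / (t + r))
      = fun r : ℝ => n * (1 / (1 + r) - 1 / (t + r)) + h (t + r) := fun t => by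
    funext r
    simp only [h]
    ring
  have h3 : ∀ t : ℝ, (fun r => t + r) ⁻¹' Ioi t = Ioi 0 := fun t => by simp
  have h4 : ∀ t > 0, IntegrableOn h (Ioi t) := fun t ht =>
    ((measurePreserving_add_left volume t).integrableOn_comp_preimage
      (measurableEmbedding_addLeft t)).mp (by rw [h3]; exact h1 t ht)
  have h5 : ∀ t ∈ Ioo (0 : ℝ) 1, (1 / 2 * (∫ r in Set.Ioi (0 : ℝ),
      (n / (1 + r) - f (t + r) / (t + r))) + K) / Real.log (t ^ (1 / 2 : ℝ))
      = ((∫ T in t..1, f T / T) + -((∫ T in Ioi 1, h T) + 2 * K)) / Real.log (1 / t) := by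
    intro t ht
    have h6 := (measurePreserving_add_left volume t).setIntegral_preimage_emb
      (measurableEmbedding_addLeft t) h (Ioi t)
    have h7 : ∫ T in t..1, (n : ℝ) / T = n * -Real.log t := by
      simp only [div_eq_mul_inv, intervalIntegral.integral_const_mul]
      rw [integral_inv_of_pos ht.1 one_pos, one_div, Real.log_inv]
    have h8 := (Real.log_neg ht.1 ht.2).ne
    rw [h3] at h6
    rw [h2, integral_add ((log_int ht.1).1.const_mul _) (h1 t ht.1), integral_const_mul,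
      (log_int ht.1).2, h6, ← intervalIntegral.integral_interval_add_Ioi (h4 t ht.1) (h4 1 one_pos),
      intervalIntegral.integral_sub (ii (f := fun _ => (n : ℝ)) measurable_const
        (fun _ _ _ => le_rfl) ht.1 ht.2.le le_rfl) (ii hf hB ht.1 ht.2.le le_rfl), h7,
      Real.log_rpow ht.1, one_div t, Real.log_inv]
    field_simp
    ring
  have h6 : ∀ᶠ t : ℝ in 𝓝[>] 0, t ∈ Ioo 0 1 := Ioo_mem_nhdsGT one_pos
  refine ⟨fun t ht => ?_, ?_, ?_⟩
  · rw [h2]
    exact ((log_int ht).1.const_mul _).add (h1 t ht)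
  · rw [limsup_congr (h6.mono fun t ht => by rw [h5 t ht])]
    exact core hf _ hB hlh hc ht0 HL HH
  · rw [liminf_congr (u := fun t : ℝ => (((1 / 2 * _ + K) / _ : ℝ) : EReal))
      (h6.mono fun t ht => by rw [h5 t ht])]
    have h7 := core (f := fun T => -f T) hf.neg ((∫ T in Ioi 1, h T) + 2 * K)
      (fun T h1 h2 => by rw [abs_neg]; exact hB T h1 h2) (neg_lt_neg hlh) hc ht0
      (fun t h1 h2 => by simpa only [neg_le_neg_iff] using HH t h1 h2)
      (fun t h1 h2 => by simpa only [neg_le_neg_iff] using HL t h1 h2)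
    rw [← EReal.neg_lt_neg_iff, ← EReal.limsup_neg, ← EReal.limsup_neg]
    convert h7 using 3 with t
    · simp only [Pi.neg_apply, ← EReal.coe_neg, neg_div, intervalIntegral.integral_neg]
      congr 1
      ring
    · rfl

end Pool.Agent.MP_ce43bb_an.H58
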